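import Pool.Agent.Q107.Ham.Path

/-!
# Hamiltonian paths of sets of multisets
-/

set_option autoImplicit false

namespace Q107.Ham

open Multiset

variable {V : Type} [DecidableEq V] {G : SimpleGraph V}

/-- one copy of a vertex is replaced by a neighbour of it -/
def Step (G : SimpleGraph V) (A B : Multiset V) : Prop :=
  ∃ u v, G.Adj u v ∧ ∃ C : Multiset V, A = u ::ₘ C ∧ B = v ::ₘ C

omit [DecidableEq V] in
lemma Step.symm (A B : Multiset V) (h : Step G A B) : Step G B A := by
  obtain ⟨u, v, huv, C, h1, h2⟩ := h
  exact ⟨v, u, huv.symm, C, h2, h1⟩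

omit [DecidableEq V] in
lemma Step.add (D : Multiset V) (A B : Multiset V) (h : Step G A B) :
    Step G (D + A) (D + B) := by
  obtain ⟨u, v, huv, C, h1, h2⟩ := h
  exact ⟨u, v, huv, D + C, by rw [h1, Multiset.add_cons], by rw [h2, Multiset.add_cons]⟩

/-- the multisets `β + γ`, `γ` a multiset of `r` elements of `E` -/
def ME (E : Finset V) (r : ℕ) (β : Multiset V) : Set (Multiset V) :=
  {M | ∃ γ : Multiset V, M = β + γ ∧ γ.card = r ∧ ∀ z ∈ γ, z ∈ E}

omit [DecidableEq V] in
lemma ME_zero (E : Finset V) (β : Multiset V) : ME E 0 β = {β} := by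
  ext M
  constructor
  · rintro ⟨γ, h1, h2, _⟩
    rw [Multiset.card_eq_zero] at h2
    rw [h1, h2]
    simp
  · rintro rfl
    exact ⟨0, by simp, by simp, by simp⟩

omit [DecidableEq V] in
lemma ME_singleton (a : V) (r : ℕ) (β : Multiset V) :
    ME {a} r β = {β + replicate r a} := by
  ext M
  constructor
  · rintro ⟨γ, h1, h2, h3⟩
    have : γ = replicate r a := by
      rw [Multiset.eq_replicate]
      exact ⟨h2, fun z hz => by simpa using h3 z hz⟩
    rw [h1, this]
    rfl
  · rintro rfl
    exact ⟨replicate r a, rfl, by simp, fun z hz => by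
      simpa using Multiset.eq_of_mem_replicate hz⟩

lemma ME_split {E : Finset V} {b : V} (hb : b ∈ E) (r : ℕ) (β : Multiset V) :
    ME E (r + 1) β = ME (E.erase b) (r + 1) β ∪ ME E r (β + {b}) := by
  ext M
  constructor
  · rintro ⟨γ, h1, h2, h3⟩
    by_cases hbg : b ∈ γ
    · right
      refine ⟨γ.erase b, ?_, ?_, ?_⟩
      · rw [h1, add_assoc, Multiset.singleton_add, Multiset.cons_erase hbg]
      · rw [Multiset.card_erase_of_mem hbg, h2]
        rfl
      · intro z hz
        exact h3 z (Multiset.mem_of_mem_erase hz)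
    · left
      refine ⟨γ, h1, h2, fun z hz => ?_⟩
      rw [Finset.mem_erase]
      exact ⟨fun h => hbg (h ▸ hz), h3 z hz⟩
  · rintro (⟨γ, h1, h2, h3⟩ | ⟨γ, h1, h2, h3⟩)
    · exact ⟨γ, h1, h2, fun z hz => Finset.mem_of_mem_erase (h3 z hz)⟩
    · refine ⟨b ::ₘ γ, ?_, ?_, ?_⟩
      · rw [h1, add_assoc, Multiset.singleton_add]
      · rw [Multiset.card_cons, h2]
      · intro z hz
        rcases Multiset.mem_cons.1 hz with h | h
        · exact h ▸ hb
        · exact h3 z h

lemma ME_disjoint {E : Finset V} {b : V} (r r' : ℕ) (β : Multiset V) :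
    Disjoint (ME (E.erase b) r β) (ME E r' (β + {b})) := by
  rw [Set.disjoint_left]
  rintro M ⟨γ, h1, h2, h3⟩ ⟨γ', h1', h2', h3'⟩
  have h4 : γ.count b = 0 := by
    rw [Multiset.count_eq_zero]
    intro h
    have := h3 b h
    simp at this
  have h5 := congrArg (Multiset.count b) (h1.symm.trans h1')
  simp only [Multiset.count_add, Multiset.count_singleton_self] at h5
  omega

/-- pairwise adjacent vertices -/
def Clique (G : SimpleGraph V) (E : Finset V) : Prop :=
  ∀ u ∈ E, ∀ v ∈ E, u ≠ v → G.Adj u v

lemma Clique.erase {E : Finset V} (h : Clique G E) (b : V) : Clique G (E.erase b) :=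
  fun u hu v hv huv => h u (Finset.mem_of_mem_erase hu) v (Finset.mem_of_mem_erase hv) huv

/-- paths between pure powers -/
theorem pure_path (n : ℕ) : ∀ (E : Finset V), E.card = n → Clique G E → ∀ (r : ℕ)
    (β : Multiset V) (a b : V), a ∈ E → b ∈ E → (a ≠ b ∨ E = {a}) →
    HP (Step G) (ME E r β) (β + replicate r a) (β + replicate r b) := by
  induction n with
  | zero =>
    intro E hE _ r β a b ha
    rw [Finset.card_eq_zero.1 hE] at ha
    simp at ha
  | succ n ih =>
    intro E hE hc r
    induction r with
    | zero =>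
      intro β a b _ _ _
      simp only [replicate_zero, add_zero]
      exact (HP.single β).congr (ME_zero E β)
    | succ r ihr =>
      intro β a b ha hb hab
      rcases hab with hab | hab
      · -- choose the intermediate symbol
        obtain ⟨e, he, hea⟩ : ∃ e ∈ E.erase b, a ≠ e ∨ E.erase b = {a} := by
          have ha' : a ∈ E.erase b := Finset.mem_erase.2 ⟨hab, ha⟩
          by_cases h : E.erase b = {a}
          · exact ⟨a, ha', Or.inr h⟩
          · obtain ⟨e, he1, he2⟩ : ∃ e ∈ E.erase b, e ≠ a := by
              by_contra hcon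
              push Not at hcon
              exact h (Finset.eq_singleton_iff_unique_mem.2 ⟨ha', hcon⟩)
            exact ⟨e, he1, Or.inl he2.symm⟩
        have heb : e ≠ b := (Finset.mem_erase.1 he).1
        have heE : e ∈ E := (Finset.mem_erase.1 he).2
        have h1 := ih (E.erase b) (by rw [Finset.card_erase_of_mem hb, hE]; rfl) (hc.erase b)
          (r + 1) β a e (Finset.mem_erase.2 ⟨hab, ha⟩) he hea
        have h2 := ihr (β + {b}) e b heE hb (Or.inl heb)
        have h3 := h1.append h2 (ME_disjoint _ _ _) ?_
        · refine (h3.congr (ME_split hb r β)).congr rfl |> fun h => ?_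
          have e1 : β + {b} + replicate r b = β + replicate (r + 1) b := by
            rw [add_assoc, Multiset.singleton_add, replicate_succ]
          rwa [e1] at h
        · refine ⟨e, b, hc e heE b hb heb, β + replicate r e, ?_, ?_⟩
          · rw [replicate_succ, Multiset.add_cons]
          · rw [add_assoc, Multiset.singleton_add, Multiset.add_cons]
      · subst hab
        have : b = a := by simpa using hb
        subst this
        exact (HP.single _).congr (ME_singleton b (r + 1) β)

/-- paths from a pure power to `a ^ r c` -/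
theorem mixed_path {E : Finset V} (hc : Clique G E) {a c : V} (ha : a ∈ E) (hcE : c ∈ E)
    (hE : 4 ≤ E.card) : ∀ (r : ℕ) (β : Multiset V) (e : V), e ∈ E → e ≠ a →
    (r = 0 → e ≠ c) →
    HP (Step G) (ME E (r + 1) β) (β + replicate (r + 1) e) (β + replicate r a + {c}) := by
  intro r
  induction r with
  | zero =>
    intro β e he _ hec
    have h := pure_path E.card E rfl hc 1 β e c he hcE (Or.inl (hec rfl))
    simpa using h
  | succ r ih =>
    intro β e he hea _
    obtain ⟨e', he', h1, h2, h3⟩ : ∃ e' ∈ E, e' ≠ a ∧ e' ≠ c ∧ e' ≠ e := by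
      by_contra hcon
      push Not at hcon
      have hsub : E ⊆ {a, c, e} := by
        intro z hz
        by_cases hza : z = a
        · simp [hza]
        by_cases hzc : z = c
        · simp [hzc]
        simp [hcon z hz hza hzc]
      have := Finset.card_le_card hsub
      have h3 : ({a, c, e} : Finset V).card ≤ 3 := Finset.card_le_three
      omega
    have p1 := pure_path (E.erase a).card (E.erase a) rfl (hc.erase a) (r + 2) β e e'
      (Finset.mem_erase.2 ⟨hea, he⟩) (Finset.mem_erase.2 ⟨h1, he'⟩) (Or.inl h3.symm)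
    have p2 := ih (β + {a}) e' he' h1 (fun _ => h2)
    have p3 := p1.append p2 (ME_disjoint _ _ _) ?_
    · have p4 := p3.congr (ME_split ha (r + 1) β)
      have e1 : β + {a} + replicate r a + {c} = β + replicate (r + 1) a + {c} := by
        rw [add_assoc β {a}, Multiset.singleton_add, replicate_succ]
      rwa [e1] at p4
    · refine ⟨e', a, hc e' he' a ha h1, β + replicate (r + 1) e', ?_, ?_⟩
      · rw [replicate_succ, Multiset.add_cons]
      · rw [add_assoc, Multiset.singleton_add, Multiset.add_cons]

end Q107.Ham
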