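import Mathlib

/-!
# Hamiltonian paths of sets, as lists
-/

set_option autoImplicit false

namespace Q107.Ham

/-- `HP R S s t`: there is a list without repetitions that runs through exactly the elements of
`S`, starts with `s`, ends with `t` and whose consecutive members are related by `R`. -/
def HP {α : Type*} (R : α → α → Prop) (S : Set α) (s t : α) : Prop :=
  ∃ l : List α, l.Nodup ∧ (∀ v, v ∈ l ↔ v ∈ S) ∧ l.IsChain R ∧ l.head? = some s ∧
    l.getLast? = some t

variable {α β : Type*} {R : α → α → Prop} {S S' : Set α} {s t s' t' : α}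

lemma HP.single (s : α) : HP R {s} s s :=
  ⟨[s], by simp, by simp, by simp, rfl, rfl⟩

lemma HP.congr (h : HP R S s t) (e : S' = S) : HP R S' s t := e ▸ h

lemma HP.append (h : HP R S s t) (h' : HP R S' s' t') (hd : Disjoint S S') (hR : R t s') :
    HP R (S ∪ S') s t' := by
  obtain ⟨l, h1, h2, h3, h4, h5⟩ := h
  obtain ⟨l', h1', h2', h3', h4', h5'⟩ := h'
  refine ⟨l ++ l', ?_, ?_, ?_, ?_, ?_⟩
  · rw [List.nodup_append']
    refine ⟨h1, h1', ?_⟩
    intro x hx hx'
    exact Set.disjoint_left.1 hd ((h2 x).1 hx) ((h2' x).1 hx')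
  · intro v
    rw [List.mem_append, Set.mem_union, h2, h2']
  · rw [List.isChain_append]
    refine ⟨h3, h3', ?_⟩
    intro x hx y hy
    rw [h5] at hx
    rw [h4'] at hy
    simp only [Option.mem_def, Option.some.injEq] at hx hy
    rw [← hx, ← hy]
    exact hR
  · rw [List.head?_append, h4]
    rfl
  · rw [List.getLast?_append, h5']
    rfl

/-- appending, with the target set given by an equation -/
lemma HP.append' (h : HP R S s t) (h' : HP R S' s' t') (T : Set α) (hT : T = S ∪ S')
    (hd : Disjoint S S') (hR : R t s') : HP R T s t' :=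
  (h.append h' hd hR).congr hT

lemma HP.reverse (hsymm : ∀ a b, R a b → R b a) (h : HP R S s t) : HP R S t s := by
  obtain ⟨l, h1, h2, h3, h4, h5⟩ := h
  refine ⟨l.reverse, List.nodup_reverse.2 h1, by simpa using h2, ?_, by simp [h5], by simp [h4]⟩
  rw [List.isChain_reverse]
  exact h3.imp fun a b hab => hsymm a b hab

lemma HP.map {R' : β → β → Prop} (f : α → β) (hf : Function.Injective f)
    (hR : ∀ a b, R a b → R' (f a) (f b)) (h : HP R S s t) : HP R' (f '' S) (f s) (f t) := by
  obtain ⟨l, h1, h2, h3, h4, h5⟩ := h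
  refine ⟨l.map f, h1.map hf, ?_, ?_, by simp [h4], by simp [h5]⟩
  · intro v
    simp only [List.mem_map, Set.mem_image, h2]
  · rw [List.isChain_map]
    exact h3.imp fun a b hab => hR a b hab

/-- pulling back along an injection whose range is the set -/
lemma HP.lift (f : β → α) (hf : Function.Injective f) (hS : ∀ a, a ∈ S ↔ ∃ b, f b = a)
    {u v : β} (h : HP R S (f u) (f v)) : HP (fun a b => R (f a) (f b)) Set.univ u v := by
  obtain ⟨l, h1, h2, h3, h4, h5⟩ := h
  have hl : l ∈ Set.range (List.map f) := by
    rw [Set.range_list_map]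
    intro x hx
    obtain ⟨b, hb⟩ := (hS x).1 ((h2 x).1 hx)
    exact ⟨b, hb⟩
  obtain ⟨l', rfl⟩ := hl
  refine ⟨l', List.Nodup.of_map f h1, ?_, ?_, ?_, ?_⟩
  · intro b
    have := (h2 (f b)).trans (hS (f b))
    rw [List.mem_map_of_injective hf] at this
    simp only [Set.mem_univ, iff_true]
    exact this.2 ⟨b, rfl⟩
  · rwa [List.isChain_map] at h3
  · rw [List.head?_map] at h4
    cases hh : l'.head? with
    | none => rw [hh] at h4; simp at h4
    | some w => rw [hh] at h4; simp at h4; rw [hf h4]
  · rw [List.getLast?_map] at h5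
    cases hh : l'.getLast? with
    | none => rw [hh] at h5; simp at h5
    | some w => rw [hh] at h5; simp at h5; rw [hf h5]

/-- A closed list gives a Hamiltonian cycle. -/
lemma hamiltonian_of_HP {V : Type*} [Fintype V] [DecidableEq V] (G : SimpleGraph V)
    {s t : V} (h : HP G.Adj Set.univ s t) (hts : G.Adj t s) (hV : 3 ≤ Fintype.card V) :
    G.IsHamiltonian := by
  intro _
  obtain ⟨l, h1, h2, h3, h4, h5⟩ := h
  have hne : l ≠ [] := by
    rintro rfl
    simp at h4
  have hs : l.head hne = s := by
    rw [List.head?_eq_some_head hne] at h4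
    exact Option.some.inj h4
  have ht : l.getLast hne = t := by
    rw [List.getLast?_eq_getLast_of_ne_nil hne] at h5
    exact Option.some.inj h5
  subst hs; subst ht
  let p := SimpleGraph.Walk.ofSupport l hne h3
  have hp : p.support = l := SimpleGraph.Walk.support_ofSupport hne h3
  have hlen : l.length = Fintype.card V := by
    rw [← List.toFinset_card_of_nodup h1]
    have : l.toFinset = Finset.univ := by
      ext v
      simp [h2]
    rw [this, Finset.card_univ]
  have hpath : p.IsPath := by
    rw [SimpleGraph.Walk.isPath_def, hp]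
    exact h1
  refine ⟨_, SimpleGraph.Walk.cons hts p, ?_⟩
  rw [SimpleGraph.Walk.isHamiltonianCycle_iff_isCycle_and_length_eq]
  have hpl : p.length + 1 = Fintype.card V := by
    have := congrArg List.length hp
    rw [SimpleGraph.Walk.length_support] at this
    rw [← hlen, this]
  constructor
  · rw [SimpleGraph.Walk.isCycle_iff_isPath_tail_and_le_length]
    refine ⟨?_, ?_⟩
    · simpa using hpath
    · rw [SimpleGraph.Walk.length_cons]
      omega
  · rw [SimpleGraph.Walk.length_cons]
    exact hpl

end Q107.Ham
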