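import Pool.Agent.Q107.Ham.Multi

/-!
# A closed tour through all multisets of size `k`
-/

set_option autoImplicit false

namespace Q107.Ham

open Multiset

variable {V : Type} [DecidableEq V] {G : SimpleGraph V}

/-- the multisets of size `k` whose multiplicities of `x` and `y` satisfy `P` -/
def BS (k : ℕ) (x y : V) (P : ℕ → ℕ → Prop) : Set (Multiset V) :=
  {M | M.card = k ∧ P (M.count x) (M.count y)}

/-- `i` copies of `x`, `j` copies of `y`, `r` copies of `e` -/
def pt (x y : V) (i j r : ℕ) (e : V) : Multiset V :=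
  replicate i x + replicate j y + replicate r e

lemma count_add_count_le {x y : V} (hxy : x ≠ y) (M : Multiset V) :
    M.count x + M.count y ≤ M.card := by
  have h : replicate (M.count x) x + replicate (M.count y) y ≤ M := by
    rw [Multiset.le_iff_count]
    intro z
    rw [Multiset.count_add, Multiset.count_replicate, Multiset.count_replicate]
    split_ifs with h1 h2 h2
    · exact absurd (h1.trans h2.symm) hxy
    · rw [h1]; omega
    · rw [h2]; omega
    · omega
  have := Multiset.card_le_card h
  simpa using this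

lemma glue {k : ℕ} {x y : V} (hxy : x ≠ y) {P Q : ℕ → ℕ → Prop} (T : ℕ → ℕ → Prop)
    {s t s' t' : Multiset V}
    (h : HP (Step G) (BS k x y P) s t) (h' : HP (Step G) (BS k x y Q) s' t')
    (hT : ∀ i j, i + j ≤ k → ((T i j ↔ P i j ∨ Q i j) ∧ ¬ (P i j ∧ Q i j)))
    (hR : Step G t s') : HP (Step G) (BS k x y T) s t' := by
  refine (h.append h' ?_ hR).congr ?_
  · rw [Set.disjoint_left]
    rintro M ⟨h1, h2⟩ ⟨_, h4⟩
    have := count_add_count_le hxy M
    exact (hT _ _ (by omega)).2 ⟨h2, h4⟩
  · ext M
    have := count_add_count_le hxy M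
    constructor
    · rintro ⟨h1, h2⟩
      rcases (hT _ _ (by omega)).1.1 h2 with h3 | h3
      · exact Or.inl ⟨h1, h3⟩
      · exact Or.inr ⟨h1, h3⟩
    · rintro (⟨h1, h2⟩ | ⟨h1, h2⟩)
      · exact ⟨h1, (hT _ _ (by omega)).1.2 (Or.inl h2)⟩
      · exact ⟨h1, (hT _ _ (by omega)).1.2 (Or.inr h2)⟩

lemma BS_congr {k : ℕ} {x y : V} (hxy : x ≠ y) {P Q : ℕ → ℕ → Prop}
    (h : ∀ i j, i + j ≤ k → (P i j ↔ Q i j)) : BS k x y P = BS k x y Q := by
  ext M
  have := count_add_count_le hxy M
  constructor
  · rintro ⟨h1, h2⟩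
    exact ⟨h1, (h _ _ (by omega)).1 h2⟩
  · rintro ⟨h1, h2⟩
    exact ⟨h1, (h _ _ (by omega)).2 h2⟩

/-- the situation: `E` is a clique that consists of all vertices other than `x` and `y` -/
structure Ctx (G : SimpleGraph V) (E : Finset V) (x y c a a' : V) : Prop where
  mem : ∀ z, z ∈ E ↔ z ≠ x ∧ z ≠ y
  clique : Clique G E
  four : 4 ≤ E.card
  hc : c ∈ E
  ha : a ∈ E
  ha' : a' ∈ E
  hac : a ≠ c
  hac' : a' ≠ c
  haa : a ≠ a'
  adj : G.Adj x y
  adjx : G.Adj c x
  adjy : G.Adj c y

variable {E : Finset V} {x y c a a' : V}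

lemma block_eq (hx : Ctx G E x y c a a') {k i j r : ℕ} (hk : i + j + r = k) :
    BS k x y (fun i' j' => i' = i ∧ j' = j) = ME E r (replicate i x + replicate j y) := by
  have hxy : x ≠ y := hx.adj.ne
  ext M
  constructor
  · rintro ⟨h1, h2, h3⟩
    refine ⟨M.filter (fun z => z ≠ x ∧ z ≠ y), ?_, ?_, ?_⟩
    · ext z
      rw [Multiset.count_add, Multiset.count_add, Multiset.count_replicate,
        Multiset.count_replicate, Multiset.count_filter]
      by_cases hzx : x = z
      · subst hzx
        simp [h2, hxy.symm]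
      · by_cases hzy : y = z
        · subst hzy
          simp [h3, hxy]
        · simp [hzx, hzy, Ne.symm hzx, Ne.symm hzy]
    · have h4 : M = M.filter (fun z => z ≠ x ∧ z ≠ y) + (replicate i x + replicate j y) := by
        ext z
        rw [Multiset.count_add, Multiset.count_add, Multiset.count_replicate,
          Multiset.count_replicate, Multiset.count_filter]
        by_cases hzx : x = z
        · subst hzx
          simp [h2, hxy.symm]
        · by_cases hzy : y = z
          · subst hzy
            simp [h3, hxy]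
          · simp [hzx, hzy, Ne.symm hzx, Ne.symm hzy]
      have h5 := congrArg Multiset.card h4
      rw [Multiset.card_add, Multiset.card_add, Multiset.card_replicate,
        Multiset.card_replicate] at h5
      omega
    · intro z hz
      rw [hx.mem]
      exact (Multiset.mem_filter.1 hz).2
  · rintro ⟨γ, h1, h2, h3⟩
    have hgx : γ.count x = 0 := by
      rw [Multiset.count_eq_zero]
      intro h
      exact ((hx.mem x).1 (h3 x h)).1 rfl
    have hgy : γ.count y = 0 := by
      rw [Multiset.count_eq_zero]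
      intro h
      exact ((hx.mem y).1 (h3 y h)).2 rfl
    refine ⟨?_, ?_, ?_⟩
    · rw [h1]
      simp only [Multiset.card_add, Multiset.card_replicate]
      omega
    · rw [h1]
      simp [hgx, Multiset.count_replicate, hxy.symm]
    · rw [h1]
      simp [hgy, Multiset.count_replicate, hxy]

lemma block (hx : Ctx G E x y c a a') {k i j r : ℕ} (hk : i + j + r = k) {e e' : V}
    (he : e ∈ E) (he' : e' ∈ E) (hee : e ≠ e') :
    HP (Step G) (BS k x y (fun i' j' => i' = i ∧ j' = j)) (pt x y i j r e) (pt x y i j r e') :=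
  (pure_path E.card E rfl hx.clique r _ e e' he he' (Or.inl hee)).congr (block_eq hx hk)

lemma block_mixed (hx : Ctx G E x y c a a') {k i j r : ℕ} (hk : i + j + (r + 2) = k) :
    HP (Step G) (BS k x y (fun i' j' => i' = i ∧ j' = j)) (pt x y i j (r + 2) c)
      (pt x y i j (r + 1) a + {c}) :=
  (mixed_path hx.clique hx.ha hx.hc hx.four (r + 1) _ c hx.hc hx.hac.symm
    (fun h => by omega)).congr (block_eq hx hk)

omit [DecidableEq V] in
lemma step_xy (hx : Ctx G E x y c a a') (i j r : ℕ) (e : V) :
    Step G (pt x y i (j + 1) r e) (pt x y (i + 1) j r e) :=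
  ⟨y, x, hx.adj.symm, pt x y i j r e, by
    simp [pt, replicate_succ, Multiset.add_cons, Multiset.cons_add], by
    simp [pt, replicate_succ, Multiset.add_cons, Multiset.cons_add]⟩

omit [DecidableEq V] in
lemma step_cx (hx : Ctx G E x y c a a') (i j r : ℕ) :
    Step G (pt x y i j (r + 1) c) (pt x y (i + 1) j r c) :=
  ⟨c, x, hx.adjx, pt x y i j r c, by
    simp [pt, replicate_succ, Multiset.add_cons, Multiset.cons_add], by
    simp [pt, replicate_succ, Multiset.add_cons, Multiset.cons_add]⟩

omit [DecidableEq V] in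
lemma step_cy (hx : Ctx G E x y c a a') (i j r : ℕ) :
    Step G (pt x y i j (r + 1) c) (pt x y i (j + 1) r c) :=
  ⟨c, y, hx.adjy, pt x y i j r c, by
    simp [pt, replicate_succ, Multiset.add_cons, Multiset.cons_add], by
    simp [pt, replicate_succ, Multiset.add_cons, Multiset.cons_add]⟩

omit [DecidableEq V] in
lemma step_mx (hx : Ctx G E x y c a a') (i j r : ℕ) :
    Step G (pt x y i j r a + {c}) (pt x y (i + 1) j r a) :=
  ⟨c, x, hx.adjx, pt x y i j r a, by
    rw [add_comm, Multiset.singleton_add], by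
    simp [pt, replicate_succ, Multiset.add_cons, Multiset.cons_add]⟩

omit [DecidableEq V] in
lemma step_my (hx : Ctx G E x y c a a') (i j r : ℕ) :
    Step G (pt x y i j r a + {c}) (pt x y i (j + 1) r a) :=
  ⟨c, y, hx.adjy, pt x y i j r a, by
    rw [add_comm, Multiset.singleton_add], by
    simp [pt, replicate_succ, Multiset.add_cons, Multiset.cons_add]⟩

/-- the two blocks of the left side of a level -/
lemma left_pair (hx : Ctx G E x y c a a') {k s r : ℕ} (hk : s + 2 + r = k) :
    HP (Step G) (BS k x y (fun i j => i ≤ 1 ∧ i + j = s + 2)) (pt x y 1 (s + 1) r c)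
      (pt x y 0 (s + 2) r c) := by
  have h1 := block hx (i := 1) (j := s + 1) (r := r) (k := k) (by omega) hx.hc hx.ha hx.hac.symm
  have h2 := block hx (i := 0) (j := s + 2) (r := r) (k := k) (by omega) hx.ha hx.hc hx.hac
  exact glue hx.adj.ne _ h1 h2 (fun i j _ => by constructor <;> omega)
    ((step_xy hx 0 (s + 1) r a).symm _ _)

lemma left (hx : Ctx G E x y c a a') {k : ℕ} : ∀ (s r : ℕ), s + 2 + r = k →
    HP (Step G) (BS k x y (fun i j => i ≤ 1 ∧ 2 ≤ i + j ∧ i + j ≤ s + 2))
      (pt x y 1 1 (r + s) c) (pt x y 0 (s + 2) r c) := by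
  intro s
  induction s with
  | zero =>
    intro r hk
    exact (left_pair hx hk).congr (BS_congr hx.adj.ne fun i j _ => by omega)
  | succ s ih =>
    intro r hk
    have h1 := ih (r + 1) (by omega)
    have h2 := left_pair hx (k := k) (s := s + 1) (r := r) (by omega)
    have h3 := glue hx.adj.ne (fun i j => i ≤ 1 ∧ 2 ≤ i + j ∧ i + j ≤ s + 1 + 2) h1 h2
      (fun i j _ => by constructor <;> omega) (step_cx hx 0 (s + 2) r)
    rwa [show r + 1 + s = r + (s + 1) by omega] at h3

lemma run (hx : Ctx G E x y c a a') {k : ℕ} : ∀ (d t r : ℕ), d + t + r = k →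
    ∀ e ∈ E, (e = a ∨ e = a') →
    HP (Step G) (BS k x y (fun i j => i + j = d + t ∧ t ≤ i)) (pt x y (d + t) 0 r c)
      (pt x y t d r e) := by
  intro d
  induction d with
  | zero =>
    intro t r hk e he hea
    have hce : c ≠ e := by
      rcases hea with h | h
      · rw [h]; exact hx.hac.symm
      · rw [h]; exact hx.hac'.symm
    have h1 := block hx (i := t) (j := 0) (r := r) (k := k) (by omega) hx.hc he hce
    rw [Nat.zero_add]
    exact h1.congr (BS_congr hx.adj.ne fun i j _ => by omega)
  | succ d ih =>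
    intro t r hk e he hea
    obtain ⟨e', he', hea', hne⟩ : ∃ e' ∈ E, (e' = a ∨ e' = a') ∧ e' ≠ e := by
      rcases hea with h | h
      · exact ⟨a', hx.ha', Or.inr rfl, by rw [h]; exact hx.haa.symm⟩
      · exact ⟨a, hx.ha, Or.inl rfl, by rw [h]; exact hx.haa⟩
    have h1 := ih (t + 1) r (by omega) e' he' hea'
    have h2 := block hx (i := t) (j := d + 1) (r := r) (k := k) (by omega) he' he hne
    have h3 := glue hx.adj.ne (fun i j => i + j = d + 1 + t ∧ t ≤ i) h1 h2
      (fun i j _ => by constructor <;> omega) ((step_xy hx t d r e').symm _ _)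
    rwa [show d + (t + 1) = d + 1 + t by omega] at h3

lemma run_full (hx : Ctx G E x y c a a') {k d r : ℕ} (hk : d + 3 + r = k) :
    HP (Step G) (BS k x y (fun i j => i + j = d + 3 ∧ 2 ≤ i)) (pt x y (d + 3) 0 r c)
      (pt x y 2 (d + 1) r c) := by
  have h1 := run hx d 3 r hk a hx.ha (Or.inl rfl)
  have h2 := block hx (i := 2) (j := d + 1) (r := r) (k := k) (by omega) hx.ha hx.hc hx.hac
  exact glue hx.adj.ne _ h1 h2 (fun i j _ => by constructor <;> omega)
    ((step_xy hx 2 d r a).symm _ _)

lemma right (hx : Ctx G E x y c a a') {k : ℕ} : ∀ (s r : ℕ), s + 2 + r = k →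
    HP (Step G) (BS k x y (fun i j => 2 ≤ i ∧ i + j ≤ s + 2)) (pt x y (s + 2) 0 r c)
      (pt x y 2 0 (r + s) a) ∧
    HP (Step G) (BS k x y (fun i j => 2 ≤ i ∧ i + j ≤ s + 2)) (pt x y 2 s r c)
      (pt x y 2 0 (r + s) a) := by
  intro s
  induction s with
  | zero =>
    intro r hk
    have h1 := (block hx (i := 2) (j := 0) (r := r) (k := k) (by omega) hx.hc hx.ha
      hx.hac.symm).congr (BS_congr hx.adj.ne (P := fun i j => 2 ≤ i ∧ i + j ≤ 0 + 2)
        fun i j _ => by omega)
    exact ⟨h1, h1⟩
  | succ s ih =>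
    intro r hk
    obtain ⟨h1, h2⟩ := ih (r + 1) (by omega)
    have h3 := run_full hx (k := k) (d := s) (r := r) (by omega)
    have e1 : r + 1 + s = r + (s + 1) := by omega
    rw [e1] at h1 h2
    constructor
    · exact glue hx.adj.ne _ h3 h2 (fun i j _ => by constructor <;> omega)
        ((step_cy hx 2 s r).symm _ _)
    · exact glue hx.adj.ne _ (h3.reverse (Step.symm)) h1
        (fun i j _ => by constructor <;> omega) ((step_cx hx (s + 2) 0 r).symm _ _)

lemma singles (hx : Ctx G E x y c a a') (k : ℕ) :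
    HP (Step G) (BS k x y (fun i j => i + j = k)) (pt x y 0 k 0 c) (pt x y k 0 0 c) := by
  have hxy : x ≠ y := hx.adj.ne
  have hcl : Clique G ({x, y} : Finset V) := by
    intro u hu v hv huv
    simp only [Finset.mem_insert, Finset.mem_singleton] at hu hv
    rcases hu with rfl | rfl <;> rcases hv with rfl | rfl
    · exact absurd rfl huv
    · exact hx.adj
    · exact hx.adj.symm
    · exact absurd rfl huv
  have h := pure_path _ {x, y} rfl hcl k 0 y x (by simp) (by simp) (Or.inl hxy.symm)
  have e1 : pt x y 0 k 0 c = 0 + replicate k y := by simp [pt]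
  have e2 : pt x y k 0 0 c = 0 + replicate k x := by simp [pt]
  rw [e1, e2]
  refine h.congr ?_
  ext M
  constructor
  · rintro ⟨h1, h2⟩
    refine ⟨M, by simp, h1, ?_⟩
    intro z hz
    by_contra hcon
    simp only [Finset.mem_insert, Finset.mem_singleton, not_or] at hcon
    have h3 : replicate (M.count x) x + replicate (M.count y) y + {z} ≤ M := by
      rw [Multiset.le_iff_count]
      intro w
      rw [Multiset.count_add, Multiset.count_add, Multiset.count_replicate,
        Multiset.count_replicate, Multiset.count_singleton]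
      have h4 := Multiset.count_pos.2 hz
      by_cases hxw : x = w
      · subst hxw
        rw [if_pos rfl, if_neg hxy.symm, if_neg (Ne.symm hcon.1)]
        omega
      · by_cases hyw : y = w
        · subst hyw
          rw [if_pos rfl, if_neg hxw, if_neg (Ne.symm hcon.2)]
          omega
        · rw [if_neg hxw, if_neg hyw]
          split_ifs with h5
          · subst h5; omega
          · omega
    have h4 := Multiset.card_le_card h3
    simp only [Multiset.card_add, Multiset.card_replicate, Multiset.card_singleton] at h4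
    omega
  · rintro ⟨γ, h1, h2, h3⟩
    rw [zero_add] at h1
    subst h1
    refine ⟨h2, ?_⟩
    have h4 : M = replicate (M.count x) x + replicate (M.count y) y := by
      ext w
      rw [Multiset.count_add, Multiset.count_replicate, Multiset.count_replicate]
      by_cases hxw : x = w
      · subst hxw
        rw [if_pos rfl, if_neg hxy.symm]
        omega
      · by_cases hyw : y = w
        · subst hyw
          rw [if_pos rfl, if_neg hxw]
          omega
        · rw [if_neg hxw, if_neg hyw, Multiset.count_eq_zero]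
          intro hw
          have := h3 w hw
          simp only [Finset.mem_insert, Finset.mem_singleton] at this
          rcases this with h | h
          · exact hxw h.symm
          · exact hyw h.symm
    have h5 := congrArg Multiset.card h4
    rw [Multiset.card_add, Multiset.card_replicate, Multiset.card_replicate] at h5
    dsimp only
    omega

/-- the closed tour -/
theorem tour (hx : Ctx G E x y c a a') (k : ℕ) :
    HP (Step G) (BS (k + 3) x y (fun _ _ => True)) (pt x y 0 0 (k + 3) c)
      (pt x y 1 0 (k + 2) c) ∧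
    Step G (pt x y 1 0 (k + 2) c) (pt x y 0 0 (k + 3) c) := by
  have hxy : x ≠ y := hx.adj.ne
  have t0 := block_mixed hx (k := k + 3) (i := 0) (j := 0) (r := k + 1) (by omega)
  have t1 := block hx (k := k + 3) (i := 0) (j := 1) (r := k + 2) (by omega) hx.ha hx.hc hx.hac
  have t2 := left hx (k := k + 3) k 1 (by omega)
  have t3 := singles hx (k + 3)
  have t4 := (right hx (k := k + 3) k 1 (by omega)).1
  have t5 := (block_mixed hx (k := k + 3) (i := 1) (j := 0) (r := k) (by omega)).reverse Step.symm
  have e1 := glue hxy (fun i j => i = 0 ∧ j ≤ 1) t0 t1 (fun i j _ => by constructor <;> omega)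
    (step_my hx 0 0 (k + 2))
  rw [show 1 + k = k + 1 by omega] at t2 t4
  have e2 := glue hxy (fun i j => (i = 0 ∧ j ≤ 1) ∨ (i ≤ 1 ∧ 2 ≤ i + j ∧ i + j ≤ k + 2)) e1 t2
    (fun i j _ => by constructor <;> omega) (step_cx hx 0 1 (k + 1))
  have e3 := glue hxy (fun i j => (i = 0 ∧ j ≤ 1) ∨ (i ≤ 1 ∧ 2 ≤ i + j ∧ i + j ≤ k + 2) ∨
    i + j = k + 3) e2 t3 (fun i j _ => by constructor <;> omega) (step_cy hx 0 (k + 2) 0)
  have e4 := glue hxy (fun i j => (i = 0 ∧ j ≤ 1) ∨ (i ≤ 1 ∧ 2 ≤ i + j ∧ i + j ≤ k + 2) ∨
    i + j = k + 3 ∨ (2 ≤ i ∧ i + j ≤ k + 2)) e3 t4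
    (fun i j _ => by constructor <;> omega) ((step_cx hx (k + 2) 0 0).symm _ _)
  have e5 := glue hxy (fun _ _ => True) e4 t5
    (fun i j _ => ⟨⟨fun _ => by omega, fun _ => trivial⟩, by omega⟩)
    ((step_mx hx 1 0 (k + 1)).symm _ _)
  exact ⟨e5, (step_cx hx 0 0 (k + 2)).symm _ _⟩

end Q107.Ham
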